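import Pool.Agent.Lib.MP_0c8bd9_co.All

/-!
# The minimum number of crossings of maximal 1-plane graphs with connectivity 3

Drawings are given by the combinatorial map of the planarisation on the sphere
(`Pool/Agent/Lib/MP_0c8bd9_co/Defs.lean`).

Lower bound. Let `n ≥ 5`. A face has two or three vertices, and by Euler's formula `2 (n - 2 - c)` of
them have three. Each of these has a side whose other side is not such a face; these sides inject into
the `4 c` angles at the crossings, so `n - 2 ≤ 3 c`. In case of equality all the faces with three
vertices are grouped in threes around vertices of degree three, so `3` divides `4 c`.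

Upper bound. Starting drawings for `n = 5, …, 14` and an operation which adds nine vertices and three
crossings at a vertex of degree three.
-/

namespace Pool.Agent.Results.MP_0c8bd9_co.MinCrossings

open Pool.Agent.Lib.MP0c8bd9

theorem result :
    (∀ n, n ≤ 3 → crSet n = ∅) ∧ IsLeast (crSet 4) 0 ∧
      ∀ n, 5 ≤ n → IsLeast (crSet n) (if n % 9 = 5 ∨ n % 9 = 8 then n / 3 + 1 else n / 3) :=
  ⟨crSet_small, allQ1⟩

end Pool.Agent.Results.MP_0c8bd9_co.MinCrossings
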