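import Pool.Agent.Lib.MP_0c8bd9_co.All

/-!
# The minimum number of edges of maximal 1-plane graphs with connectivity 3

Drawings are given by the combinatorial map of the planarisation on the sphere
(`Pool/Agent/Lib/MP_0c8bd9_co/Defs.lean`).

Lower bound. By Euler's formula the number of edges is `3 n - 6 - 3 c` plus the number of faces with
exactly two vertices, where `c` is the number of crossings. Every angle at a crossing which is not a
triangular face is charged to the crossing on the edge which joins the two ends of the angle; every
crossing is charged at most once, so there are at least `3 c` faces with exactly two vertices.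

Upper bound. Cubes of paths, with `n - 3` crossings.
-/

namespace Pool.Agent.Results.MP_0c8bd9_co.MinEdges

open Pool.Agent.Lib.MP0c8bd9

theorem result :
    (∀ n, n ≤ 3 → sizeSet n = ∅) ∧ ∀ n, 4 ≤ n → IsLeast (sizeSet n) (3 * n - 6) :=
  ⟨sizeSet_small, allQ2⟩

end Pool.Agent.Results.MP_0c8bd9_co.MinEdges
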